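import Pool.Agent.X161.MC.Exist

/-!
# MP_c7ed95_nt: a strong MC number with an MC-circle through exactly five lattice points
-/

set_option autoImplicit false

namespace Pool.Agent.Results.MP_c7ed95_nt.FiveOnCircle

open Pool.Agent.X161.MC

/-- The lattice points enclosed by the circle with centre `c` and radius `r`. -/
def enclosed (c : ℝ × ℝ) (r : ℝ) : Set (ℤ × ℤ) :=
  {p | ((p.1 : ℝ) - c.1) ^ 2 + ((p.2 : ℝ) - c.2) ^ 2 < r ^ 2}

/-- The lattice points on the circumference of the circle with centre `c` and radius `r`. -/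
def onCircle (c : ℝ × ℝ) (r : ℝ) : Set (ℤ × ℤ) :=
  {p | ((p.1 : ℝ) - c.1) ^ 2 + ((p.2 : ℝ) - c.2) ^ 2 = r ^ 2}

/-- The circle with centre `c` and radius `r` is `n`-enclosing. -/
def IsEnclosing (n : ℕ) (c : ℝ × ℝ) (r : ℝ) : Prop := 0 < r ∧ (enclosed c r).encard = n

/-- The circle with centre `c` and radius `r` is a largest `n`-enclosing circle. -/
def IsMCCircle (n : ℕ) (c : ℝ × ℝ) (r : ℝ) : Prop :=
  IsEnclosing n c r ∧ ∀ c' r', IsEnclosing n c' r' → r' ≤ r

/-- `n` is an MC number: there is a largest `n`-enclosing circle. -/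
def IsMC (n : ℕ) : Prop := ∃ c r, IsMCCircle n c r

/-- `n` is a strong MC number. -/
def IsStrong (n : ℕ) : Prop := IsMC n ∧ ¬ IsMC (n + 1)

lemma encard_eq (c : ℝ × ℝ) (r : ℝ) : (enclosed c r).encard = cnt c.1 c.2 (r ^ 2) :=
  ((enc_finite c.1 c.2 (r ^ 2)).cast_ncard_eq).symm

lemma cert : chk 1024 3743547392 60 11204 (near 256 256 3) 14 0 0 512 = true := by
  decide +kernel

lemma core_val : 11202 ≤ boxCount 1024 3743547392 60 253 259 253 259 := by decide +kernel

lemma S_eq : (((3743547392 : ℕ) : ℝ) / ((1024 : ℕ) : ℝ) ^ 2) = 28561 / 8 := by norm_num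

lemma pair_bound {x y : ℝ} (h1 : 253 ≤ x * 1024) (h2 : x * 1024 ≤ 259) (h3 : 253 ≤ y * 1024)
    (h4 : y * 1024 ≤ 259) {p q : ℤ × ℤ} (hpq : p ≠ q)
    (hp0 : sd (1 / 4) (1 / 4) p = 28561 / 8) (hq0 : sd (1 / 4) (1 / 4) q = 28561 / 8)
    (hp : sd x y p < 28561 / 8) (hq : sd x y q < 28561 / 8) :
    11204 ≤ cnt x y (28561 / 8) := by
  rw [← S_eq] at *
  have := near_count (M := 1024) (S := 3743547392) (a := 253) (a' := 259) (b := 253) (b' := 259)
    (by norm_num) (by norm_num) (by norm_num) (x₀ := 1 / 4) (y₀ := 1 / 4) (x := x) (y := y)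
    (by norm_num) (by norm_num) (by norm_num) (by norm_num) (by norm_num) (by norm_num)
    (by norm_num) (by norm_num) (by norm_num; linarith) (by norm_num; linarith)
    (by norm_num; linarith) (by norm_num; linarith) (by linarith) (by linarith)
    (by linarith) (by linarith) 60
    {p, q}
    (by
      intro a ha
      simp only [Finset.mem_insert, Finset.mem_singleton] at ha
      rcases ha with rfl | rfl
      · exact hp0.ge
      · exact hq0.ge)
    (by
      intro a ha
      simp only [Finset.mem_insert, Finset.mem_singleton] at ha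
      rcases ha with rfl | rfl
      · exact hp
      · exact hq)
  have c := core_val
  rw [Finset.card_pair hpq] at this
  omega

lemma lower_near {x y : ℝ} (h1 : 253 ≤ x * 1024) (h2 : x * 1024 ≤ 259) (h3 : 253 ≤ y * 1024)
    (h4 : y * 1024 ≤ 259) (hne : ¬ (x = 1 / 4 ∧ y = 1 / 4)) : 11204 ≤ cnt x y (28561 / 8) := by
  obtain ⟨w, hw⟩ : ∃ w : ℝ, w = x - 1 / 4 := ⟨_, rfl⟩
  obtain ⟨v, hv⟩ : ∃ v : ℝ, v = y - 1 / 4 := ⟨_, rfl⟩
  have ex : x = w + 1 / 4 := by linarith
  have ey : y = v + 1 / 4 := by linarith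
  subst ex ey
  have hq1 : w ^ 2 ≤ |w| / 10 := by
    rcases abs_cases w with ⟨h, _⟩ | ⟨h, _⟩ <;> rw [h] <;> nlinarith
  have hq2 : v ^ 2 ≤ |v| / 10 := by
    rcases abs_cases v with ⟨h, _⟩ | ⟨h, _⟩ <;> rw [h] <;> nlinarith
  have hpos : 0 < |w| + |v| := by
    rcases eq_or_ne w 0 with h5 | h5
    · rcases eq_or_ne v 0 with h6 | h6
      · exact absurd ⟨by rw [h5]; norm_num, by rw [h6]; norm_num⟩ hne
      · have := abs_pos.2 h6
        have := abs_nonneg w
        linarith
    · have := abs_pos.2 h5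
      have := abs_nonneg v
      linarith
  have fin : ∀ p q : ℤ × ℤ, p ≠ q → sd (1 / 4) (1 / 4) p = 28561 / 8 →
      sd (1 / 4) (1 / 4) q = 28561 / 8 →
      (|w| + |v|) / 10 < ((4 * (p.1 : ℝ) - 1) * w + (4 * (p.2 : ℝ) - 1) * v) / 2 →
      (|w| + |v|) / 10 < ((4 * (q.1 : ℝ) - 1) * w + (4 * (q.2 : ℝ) - 1) * v) / 2 →
      11204 ≤ cnt (w + 1 / 4) (v + 1 / 4) (28561 / 8) := by
    intro p q hpq hp0 hq0 hp hq
    refine pair_bound h1 h2 h3 h4 hpq hp0 hq0 ?_ ?_
    · simp only [sd] at hp0 ⊢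
      nlinarith
    · simp only [sd] at hq0 ⊢
      nlinarith
  rcases abs_cases w with ⟨ew, sw⟩ | ⟨ew, sw⟩ <;> rcases abs_cases v with ⟨ev, sv⟩ | ⟨ev, sv⟩ <;>
    rw [ew, ev] at hpos fin
  · rcases le_total v (w / 5) with h | h
    · exact fin (23, -55) (60, 0) (by decide) (by norm_num [sd]) (by norm_num [sd])
        (by push_cast; linarith) (by push_cast; linarith)
    rcases le_total v (5 * w) with h' | h'
    · exact fin (60, 0) (0, 60) (by decide) (by norm_num [sd]) (by norm_num [sd])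
        (by push_cast; linarith) (by push_cast; linarith)
    · exact fin (0, 60) (-55, 23) (by decide) (by norm_num [sd]) (by norm_num [sd])
        (by push_cast; linarith) (by push_cast; linarith)
  · rcases le_total (-v) (2 * w) with h | h
    · exact fin (23, -55) (60, 0) (by decide) (by norm_num [sd]) (by norm_num [sd])
        (by push_cast; linarith) (by push_cast; linarith)
    · exact fin (-42, -42) (23, -55) (by decide) (by norm_num [sd]) (by norm_num [sd])
        (by push_cast; linarith) (by push_cast; linarith)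
  · rcases le_total (-w) (2 * v) with h | h
    · exact fin (0, 60) (-55, 23) (by decide) (by norm_num [sd]) (by norm_num [sd])
        (by push_cast; linarith) (by push_cast; linarith)
    · exact fin (-55, 23) (-42, -42) (by decide) (by norm_num [sd]) (by norm_num [sd])
        (by push_cast; linarith) (by push_cast; linarith)
  · rcases le_total v w with h | h
    · exact fin (-42, -42) (23, -55) (by decide) (by norm_num [sd]) (by norm_num [sd])
        (by push_cast; linarith) (by push_cast; linarith)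
    · exact fin (-55, 23) (-42, -42) (by decide) (by norm_num [sd]) (by norm_num [sd])
        (by push_cast; linarith) (by push_cast; linarith)

lemma lower {x y : ℝ} (hx0 : 0 ≤ x) (hx1 : x ≤ 1 / 2) (hy0 : 0 ≤ y) (hy1 : y ≤ 1 / 2)
    (hne : ¬ (x = 1 / 4 ∧ y = 1 / 4)) : 11204 ≤ cnt x y (28561 / 8) := by
  rw [← S_eq]
  rcases chk_sound (by norm_num) 14 0 0 512 (by norm_num) (by norm_num) cert x y
    (by push_cast; linarith) (by push_cast; linarith) (by push_cast; linarith)
    (by push_cast; linarith) with h | h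
  · exact h
  obtain ⟨a, b, h, hn, h1, h2, h3, h4⟩ := h
  rw [S_eq]
  obtain ⟨e1, e2, e3, e4⟩ := near_spec hn h1 h2 h3 h4
  norm_num at e1 e2 e3 e4
  exact lower_near (by linarith) (by linarith) (by linarith) (by linarith) hne

lemma centre_count : cnt (1 / 4) (1 / 4) (28561 / 8) = 11202 := by
  have h := cnt_exact (M := 4) (X := 1) (Y := 1) (S := 57122) 60 (by norm_num) (by norm_num)
    (by norm_num) (by norm_num)
  norm_num at h
  rw [h]
  decide +kernel

lemma five {p : ℤ × ℤ} (hp : p ∈ ({(-55, 23), (-42, -42), (0, 60), (23, -55), (60, 0)} :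
    Finset (ℤ × ℤ))) : sd (1 / 4) (1 / 4) p = 28561 / 8 := by
  simp only [Finset.mem_insert, Finset.mem_singleton] at hp
  rcases hp with rfl | rfl | rfl | rfl | rfl <;> norm_num [sd]

/-- The number of the enclosed points at the critical radius and beyond it. -/
lemma dich (x y : ℝ) {s : ℝ} (hs : 28561 / 8 ≤ s) :
    11204 ≤ cnt x y s ∨ (s = 28561 / 8 ∧ cnt x y s = 11202) := by
  obtain ⟨x', y', h1, h2, h3, h4, h5⟩ := exists_red x y
  rw [h5]
  by_cases hc : x' = 1 / 4 ∧ y' = 1 / 4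
  · obtain ⟨rfl, rfl⟩ := hc
    rcases lt_or_eq_of_le hs with h | h
    · left
      have := cnt_gt h {(-55, 23), (-42, -42), (0, 60), (23, -55), (60, 0)}
        (x := 1 / 4) (y := 1 / 4) (fun p hp => five hp)
      rw [centre_count] at this
      have hcard : ({(-55, 23), (-42, -42), (0, 60), (23, -55), (60, 0)} :
          Finset (ℤ × ℤ)).card = 5 := by decide
      omega
    · right
      rw [← h]
      exact ⟨rfl, centre_count⟩
  · left
    exact (lower h1 h2 h3 h4 hc).trans (cnt_mono hs)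

lemma exist {t : ℝ} (ht : t < 28561 / 8) : ∃ x y s : ℝ, t < s ∧ cnt x y s = 11203 := by
  refine exist_near (q := 4) (N := 57122) (X := 1) (Y := 1) (V := 239) (W := -1) (A := 57121)
    (m := 11202) (k := 1) (by norm_num) ?_ ?_ (by norm_num; exact ht)
  · have := centre_count
    norm_num at this ⊢
    exact this
  · rw [Set.ncard_eq_one]
    refine ⟨(60, 0), ?_⟩
    ext ⟨a, b⟩
    simp only [Set.mem_ofPred_eq, Set.mem_singleton_iff, Prod.mk.injEq]
    push_cast
    constructor
    · rintro ⟨h1, h2⟩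
      have h3 : (4 * a - 1 - 239) ^ 2 + (4 * b - 1 + 1) ^ 2 = 0 := by
        apply le_antisymm
        · nlinarith
        · positivity
      have h4 : (4 * a - 1 - 239) ^ 2 = 0 := by
        nlinarith [sq_nonneg (4 * a - 1 - 239), sq_nonneg (4 * b - 1 + 1)]
      have h5 : (4 * b - 1 + 1) ^ 2 = 0 := by
        nlinarith [sq_nonneg (4 * a - 1 - 239), sq_nonneg (4 * b - 1 + 1)]
      rw [sq_eq_zero_iff] at h4 h5
      omega
    · rintro ⟨rfl, rfl⟩
      norm_num

lemma onCircle_eq : onCircle (1 / 4, 1 / 4) (√(28561 / 8)) =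
    (({(-55, 23), (-42, -42), (0, 60), (23, -55), (60, 0)} : Finset (ℤ × ℤ)) : Set (ℤ × ℤ)) := by
  ext ⟨a, b⟩
  simp only [onCircle, Set.mem_ofPred_eq]
  rw [Real.sq_sqrt (by norm_num)]
  constructor
  · intro h
    have h1 : (4 * (a : ℝ) - 1) ^ 2 + (4 * (b : ℝ) - 1) ^ 2 = 57122 := by linarith
    have h2 : (4 * a - 1) ^ 2 + (4 * b - 1) ^ 2 = 57122 := by exact_mod_cast h1
    have ha : a ∈ Finset.Icc (-60 : ℤ) 60 := by
      rw [Finset.mem_Icc]
      constructor <;> nlinarith [sq_nonneg (4 * b - 1)]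
    have hb : b ∈ Finset.Icc (-60 : ℤ) 60 := by
      rw [Finset.mem_Icc]
      constructor <;> nlinarith [sq_nonneg (4 * a - 1)]
    have key : ∀ a ∈ Finset.Icc (-60 : ℤ) 60, ∀ b ∈ Finset.Icc (-60 : ℤ) 60,
        (4 * a - 1) ^ 2 + (4 * b - 1) ^ 2 = 57122 →
        (a, b) ∈ ({(-55, 23), (-42, -42), (0, 60), (23, -55), (60, 0)} : Finset (ℤ × ℤ)) := by
      decide +kernel
    exact Finset.mem_coe.2 (key a ha b hb h2)
  · intro h
    have := five (Finset.mem_coe.1 h)
    exact this

lemma mc_circle : IsMCCircle 11202 (1 / 4, 1 / 4) (√(28561 / 8)) := by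
  refine ⟨⟨Real.sqrt_pos.2 (by norm_num), ?_⟩, ?_⟩
  · rw [encard_eq, Real.sq_sqrt (by norm_num), centre_count]
  · rintro c r ⟨h0, hc⟩
    rw [encard_eq] at hc
    have hc' : cnt c.1 c.2 (r ^ 2) = 11202 := by exact_mod_cast hc
    by_contra hcon
    push Not at hcon
    have hs : 28561 / 8 < r ^ 2 := (Real.sqrt_lt' h0).1 hcon
    rcases dich c.1 c.2 hs.le with h | ⟨h, _⟩
    · omega
    · exact hs.ne' h

lemma not_mc : ¬ IsMC 11203 := by
  rintro ⟨c, r, ⟨h0, hc⟩, hmax⟩
  rw [encard_eq] at hc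
  have hc' : cnt c.1 c.2 (r ^ 2) = 11203 := by exact_mod_cast hc
  have hs : r ^ 2 < 28561 / 8 := by
    by_contra hcon
    push Not at hcon
    rcases dich c.1 c.2 hcon with h | ⟨_, h⟩ <;> omega
  obtain ⟨x, y, s, h1, h2⟩ := exist hs
  have hs0 : 0 < s := lt_trans (by positivity) h1
  have := hmax (x, y) (√s) ⟨Real.sqrt_pos.2 hs0, by rw [encard_eq, Real.sq_sqrt hs0.le, h2]⟩
  have h3 : s ≤ r ^ 2 := (Real.sqrt_le_left h0.le).1 this
  linarith

/-- `11202` is a strong MC number, the circle with centre `(1/4, 1/4)` and radius `√(28561 / 8)` is an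
MC-circle of it, and exactly five lattice points are on its circumference.  So the assertion of the
problem is false. -/
theorem result :
    (IsStrong 11202 ∧ IsMCCircle 11202 (1 / 4, 1 / 4) (√(28561 / 8)) ∧
      (onCircle (1 / 4, 1 / 4) (√(28561 / 8))).encard = 5) ∧
    ¬ ∀ n : ℕ, IsStrong n → ∀ c r, IsMCCircle n c r → 6 ≤ (onCircle c r).encard := by
  have h1 : IsStrong 11202 := ⟨⟨_, _, mc_circle⟩, not_mc⟩
  have h2 : (onCircle (1 / 4, 1 / 4) (√(28561 / 8))).encard = 5 := by
    rw [onCircle_eq, Set.encard_coe_eq_coe_finsetCard]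
    rfl
  refine ⟨⟨h1, mc_circle, h2⟩, fun h => ?_⟩
  have := h _ h1 _ _ mc_circle
  rw [h2] at this
  exact absurd this (by decide)

end Pool.Agent.Results.MP_c7ed95_nt.FiveOnCircle
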